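import Mathlib

/-!
The functional equation of a Dirichlet L-function at the central point fixes the real part of the
logarithmic derivative there: for primitive `χ` modulo `q > 1` with `L(1/2, χ) ≠ 0`,
`Re (L'/L)(1/2, χ) = -(log q)/2 - Re (γ'/γ)(1/2)` with `γ` the gamma factor of `χ`.
-/

set_option autoImplicit false

open Complex Set Filter Topology

namespace Pool.Agent.R311

theorem LFunction_conj {q : ℕ} [NeZero q] (χ : DirichletCharacter ℂ q) (s : ℂ) (hs : s ≠ 1) :
    DirichletCharacter.LFunction χ⁻¹ ((starRingEnd ℂ) s) =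
      (starRingEnd ℂ) (DirichletCharacter.LFunction χ s) := by
  have hg_an : AnalyticOnNhd ℂ (fun z ↦ (starRingEnd ℂ)
      (DirichletCharacter.LFunction χ⁻¹ ((starRingEnd ℂ) z))) {1}ᶜ :=
    DifferentiableOn.analyticOnNhd
      (fun z hz ↦ (differentiableAt_conj_conj_iff.mpr <|
        DirichletCharacter.differentiableAt_LFunction _ _ (Or.inl <|
        (map_ne_one_iff _ (starRingEnd ℂ).injective).mpr hz)).differentiableWithinAt)
      isOpen_compl_singleton
  have hf_an : AnalyticOnNhd ℂ (DirichletCharacter.LFunction χ) {1}ᶜ :=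
    DifferentiableOn.analyticOnNhd
      (fun z hz ↦ (DirichletCharacter.differentiableAt_LFunction _ _
        (Or.inl hz)).differentiableWithinAt) isOpen_compl_singleton
  have hgz (z : ℂ) (hz : 1 < z.re) : (starRingEnd ℂ)
      (DirichletCharacter.LFunction χ⁻¹ ((starRingEnd ℂ) z)) = DirichletCharacter.LFunction χ z := by
    rw [DirichletCharacter.LFunction_eq_LSeries _ (by rwa [conj_re]),
      DirichletCharacter.LFunction_eq_LSeries _ hz, LSeries, LSeries, conj_tsum]
    refine tsum_congr fun n ↦ ?_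
    rcases eq_or_ne n 0 with rfl | hn
    · simp
    · rw [LSeries.term_of_ne_zero hn, LSeries.term_of_ne_zero hn, map_div₀,
        ← conj_cpow _ _ (by rw [natCast_arg]; positivity), conj_natCast,
        ← MulChar.star_apply']
      simp
  have heq : EqOn (fun z ↦ (starRingEnd ℂ)
      (DirichletCharacter.LFunction χ⁻¹ ((starRingEnd ℂ) z))) (DirichletCharacter.LFunction χ) {1}ᶜ :=
    hg_an.eqOn_of_preconnected_of_eventuallyEq hf_an
      (isConnected_compl_singleton_of_one_lt_rank (by simp) 1).isPreconnected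
      (by norm_num : (2 : ℂ) ∈ _)
      (eventuallyEq_of_mem
        ((isOpen_lt continuous_const continuous_re).mem_nhds (by norm_num)) hgz)
  simpa using congrArg (starRingEnd ℂ) (heq hs)

/-- A nonprincipal character modulo a prime is primitive. -/
theorem prim_of_ne_one {q : ℕ} [NeZero q] (hq : q.Prime) {χ : DirichletCharacter ℂ q} (h : χ ≠ 1) :
    χ.IsPrimitive := by
  have h1 : χ.conductor ∣ q := DirichletCharacter.conductor_dvd_level χ
  rcases (Nat.dvd_prime hq).1 h1 with h2 | h2
  · exact absurd (DirichletCharacter.eq_one_iff_conductor_eq_one.2 h2) h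
  · exact h2

/-- The gamma factor of a Dirichlet character only depends on its parity. -/
theorem gamma_cases {q : ℕ} (χ : DirichletCharacter ℂ q) :
    (DirichletCharacter.gammaFactor χ = fun s => Gammaℝ s) ∨
      (DirichletCharacter.gammaFactor χ = fun s => Gammaℝ (s + 1)) := by
  rcases χ.even_or_odd with h | h
  · left; funext s; exact DirichletCharacter.Even.gammaFactor_def h s
  · right; funext s; exact DirichletCharacter.Odd.gammaFactor_def h s

theorem differentiableAt_Gammaℝ' {s : ℂ} (hs : 0 < s.re) : DifferentiableAt ℂ Gammaℝ s := by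
  have h1 : DifferentiableAt ℂ (fun s : ℂ => (Gammaℝ s)⁻¹) s :=
    differentiable_Gammaℝ_inv s
  have h2 : (Gammaℝ s)⁻¹ ≠ 0 := inv_ne_zero (Gammaℝ_ne_zero_of_re_pos hs)
  have h3 : DifferentiableAt ℂ (fun s : ℂ => ((Gammaℝ s)⁻¹)⁻¹) s := h1.inv h2
  simpa using h3

theorem Gammaℝ_conj (s : ℂ) : Gammaℝ ((starRingEnd ℂ) s) = (starRingEnd ℂ) (Gammaℝ s) := by
  have h2 : (starRingEnd ℂ) (2 : ℂ) = 2 := Complex.conj_ofNat 2
  rw [Gammaℝ_def, Gammaℝ_def, map_mul, ← Gamma_conj]
  congr 1
  · have h := cpow_conj (Real.pi : ℂ) (-s / 2)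
      (by rw [arg_ofReal_of_nonneg Real.pi_pos.le]; exact Real.pi_pos.ne)
    rw [conj_ofReal] at h
    rw [← h]
    congr 1
    rw [map_div₀, map_neg, h2]
  · congr 1
    rw [map_div₀, h2]

theorem inv_even {q : ℕ} {χ : DirichletCharacter ℂ q} (h : χ.Even) : χ⁻¹.Even := by
  have h1 : χ⁻¹ (-1) * χ (-1) = 1 := by
    rw [← MulChar.mul_apply, inv_mul_cancel]
    exact MulChar.one_apply (isUnit_one.neg)
  have h2 : χ (-1) = 1 := h
  rw [h2, mul_one] at h1
  exact h1

theorem inv_odd {q : ℕ} {χ : DirichletCharacter ℂ q} (h : χ.Odd) : χ⁻¹.Odd := by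
  have h1 : χ⁻¹ (-1) * χ (-1) = 1 := by
    rw [← MulChar.mul_apply, inv_mul_cancel]
    exact MulChar.one_apply (isUnit_one.neg)
  have h2 : χ (-1) = -1 := h
  rw [h2, mul_neg_one, neg_eq_iff_eq_neg] at h1
  exact h1

theorem gammaFactor_inv {q : ℕ} (χ : DirichletCharacter ℂ q) (s : ℂ) :
    DirichletCharacter.gammaFactor χ⁻¹ ((starRingEnd ℂ) s) =
      (starRingEnd ℂ) (DirichletCharacter.gammaFactor χ s) := by
  rcases χ.even_or_odd with h | h
  · rw [h.gammaFactor_def, (inv_even h).gammaFactor_def, Gammaℝ_conj]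
  · rw [h.gammaFactor_def, (inv_odd h).gammaFactor_def, ← Gammaℝ_conj]
    simp

theorem gammaFactor_ne {q : ℕ} (χ : DirichletCharacter ℂ q) {s : ℂ} (hs : 0 < s.re) :
    DirichletCharacter.gammaFactor χ s ≠ 0 := by
  rcases gamma_cases χ with h | h
  · rw [h]; exact Gammaℝ_ne_zero_of_re_pos hs
  · rw [h]
    apply Gammaℝ_ne_zero_of_re_pos
    rw [add_re, one_re]; linarith

theorem completed_eq {q : ℕ} [NeZero q] (hq : 1 < q) (χ : DirichletCharacter ℂ q) {s : ℂ}
    (hs : 0 < s.re) : DirichletCharacter.completedLFunction χ s =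
      DirichletCharacter.gammaFactor χ s * DirichletCharacter.LFunction χ s := by
  rw [DirichletCharacter.LFunction_eq_completed_div_gammaFactor χ s (Or.inr (by omega)),
    mul_div_cancel₀ _ (gammaFactor_ne χ hs)]

theorem completed_conj {q : ℕ} [NeZero q] (hq : 1 < q) {χ : DirichletCharacter ℂ q} (h1 : χ ≠ 1)
    (s : ℂ) : DirichletCharacter.completedLFunction χ⁻¹ ((starRingEnd ℂ) s) =
      (starRingEnd ℂ) (DirichletCharacter.completedLFunction χ s) := by
  have h2 : χ⁻¹ ≠ 1 := inv_ne_one.2 h1
  have hd1 := DirichletCharacter.differentiable_completedLFunction h1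
  have hd2 := DirichletCharacter.differentiable_completedLFunction h2
  have hA : AnalyticOnNhd ℂ (fun s => (starRingEnd ℂ)
      (DirichletCharacter.completedLFunction χ⁻¹ ((starRingEnd ℂ) s))) univ := by
    intro z _
    have hd : Differentiable ℂ (fun s => (starRingEnd ℂ)
        (DirichletCharacter.completedLFunction χ⁻¹ ((starRingEnd ℂ) s))) := by
      intro w
      have h3 := (hd2 ((starRingEnd ℂ) w)).hasDerivAt.conj_conj
      rw [Complex.conj_conj] at h3
      exact h3.differentiableAt
    exact hd.analyticAt z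
  have hB : AnalyticOnNhd ℂ (DirichletCharacter.completedLFunction χ) univ :=
    fun z _ => hd1.analyticAt z
  have hev : (fun s => (starRingEnd ℂ)
      (DirichletCharacter.completedLFunction χ⁻¹ ((starRingEnd ℂ) s))) =ᶠ[𝓝 (2 : ℂ)]
      DirichletCharacter.completedLFunction χ := by
    have hmem : {z : ℂ | 1 < z.re} ∈ 𝓝 (2 : ℂ) :=
      (isOpen_lt continuous_const continuous_re).mem_nhds (by simp)
    filter_upwards [hmem] with z hz
    have hz' : 1 < z.re := hz
    have hz1 : z ≠ 1 := by
      intro h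
      rw [h, one_re] at hz'
      exact lt_irrefl _ hz'
    rw [completed_eq hq χ⁻¹ (by rw [conj_re]; linarith), completed_eq hq χ (by linarith),
      gammaFactor_inv, LFunction_conj χ z hz1, map_mul, Complex.conj_conj, Complex.conj_conj]
  have := hA.eq_of_eventuallyEq hB hev
  have h3 := congrFun this s
  rw [← h3, Complex.conj_conj]

/-- The log-derivative of the completed L-function at the central point has real part
`-(log q)/2`. -/
theorem completed_re {q : ℕ} [NeZero q] (hq : 1 < q) {χ : DirichletCharacter ℂ q}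
    (hχ : χ.IsPrimitive) (h1 : χ ≠ 1) (hne : DirichletCharacter.completedLFunction χ (1 / 2) ≠ 0) :
    (deriv (DirichletCharacter.completedLFunction χ) (1 / 2) /
      DirichletCharacter.completedLFunction χ (1 / 2)).re = -(Real.log q) / 2 := by
  have h2 : χ⁻¹ ≠ 1 := inv_ne_one.2 h1
  have hconj := completed_conj hq h1
  set f := DirichletCharacter.completedLFunction χ with hf
  set g := DirichletCharacter.completedLFunction χ⁻¹ with hg
  have df : Differentiable ℂ f := DirichletCharacter.differentiable_completedLFunction h1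
  have dg : Differentiable ℂ g := DirichletCharacter.differentiable_completedLFunction h2
  have hfe : ∀ s : ℂ, f (1 - s) = (q : ℂ) ^ (s - 1 / 2) * DirichletCharacter.rootNumber χ * g s :=
    fun s => hχ.completedLFunction_one_sub s
  set w := DirichletCharacter.rootNumber χ with hw
  have hq0 : (q : ℂ) ≠ 0 := by exact_mod_cast (by omega : q ≠ 0)
  have e0 : f (1 / 2) = w * g (1 / 2) := by
    have := hfe (1 / 2)
    norm_num at this
    simpa using this
  have hc2 : (starRingEnd ℂ) (1 / 2 : ℂ) = 1 / 2 := by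
    rw [map_div₀, map_one, Complex.conj_ofNat]
  have hg0 : g (1 / 2) = (starRingEnd ℂ) (f (1 / 2)) := by
    have := hconj (1 / 2)
    rwa [hc2] at this
  have hg1 : deriv g (1 / 2) = (starRingEnd ℂ) (deriv f (1 / 2)) := by
    have h3 : (fun s => (starRingEnd ℂ) (g ((starRingEnd ℂ) s))) = f := by
      funext s
      rw [hconj, Complex.conj_conj]
    have h4 := (dg ((starRingEnd ℂ) (1 / 2))).hasDerivAt.conj_conj
    rw [Complex.conj_conj] at h4
    have h5 : HasDerivAt f ((starRingEnd ℂ) (deriv g ((starRingEnd ℂ) (1 / 2)))) (1 / 2) := by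
      rw [← h3]
      exact h4
    have h6 := h5.deriv
    rw [hc2] at h6
    rw [h6, Complex.conj_conj]
  -- differentiate the functional equation
  have hd1 : HasDerivAt (fun s : ℂ => f (1 - s)) (-(deriv f (1 / 2))) (1 / 2) := by
    have h3 : HasDerivAt f (deriv f (1 / 2)) (1 - 1 / 2) := by
      have := (df (1 / 2)).hasDerivAt
      norm_num
      norm_num at this
      exact this
    have h4 : HasDerivAt (fun s : ℂ => (1 : ℂ) - s) (-1) (1 / 2) := by
      simpa using (hasDerivAt_id (1 / 2 : ℂ)).const_sub 1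
    have h5 := h3.comp (1 / 2 : ℂ) h4
    rw [mul_neg_one] at h5
    exact h5
  have hd2 : HasDerivAt (fun s : ℂ => (q : ℂ) ^ (s - 1 / 2) * w * g s)
      ((Complex.log q) * w * g (1 / 2) + w * deriv g (1 / 2)) (1 / 2) := by
    have h3 : HasDerivAt (fun s : ℂ => (q : ℂ) ^ (s - 1 / 2)) (Complex.log q) (1 / 2) := by
      have h4 : HasDerivAt (fun s : ℂ => s - 1 / 2) 1 (1 / 2) := by
        simpa using (hasDerivAt_id (1 / 2 : ℂ)).sub_const (1 / 2)
      have h5 := h4.const_cpow (c := (q : ℂ)) (Or.inl hq0)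
      simpa using h5
    have h6 := (h3.mul_const w).mul (dg (1 / 2)).hasDerivAt
    have e1 : (q : ℂ) ^ ((1 / 2 : ℂ) - 1 / 2) = 1 := by simp
    rw [e1, one_mul] at h6
    exact h6
  have hd3 : -(deriv f (1 / 2)) = (Complex.log q) * w * g (1 / 2) + w * deriv g (1 / 2) := by
    have h3 : (fun s : ℂ => f (1 - s)) = fun s : ℂ => (q : ℂ) ^ (s - 1 / 2) * w * g s := by
      funext s; exact hfe s
    rw [h3] at hd1
    exact hd1.unique hd2
  have hw0 : w ≠ 0 := by
    intro h
    rw [h, zero_mul] at e0
    exact hne e0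
  have hg00 : g (1 / 2) ≠ 0 := by
    intro h
    rw [h, mul_zero] at e0
    exact hne e0
  have key : -(deriv f (1 / 2) / f (1 / 2)) = Complex.log q +
      (starRingEnd ℂ) (deriv f (1 / 2) / f (1 / 2)) := by
    rw [map_div₀, ← hg0, ← hg1]
    have : -(deriv f (1 / 2) / f (1 / 2)) = (-(deriv f (1 / 2))) / (w * g (1 / 2)) := by
      rw [← e0]; ring
    rw [this, hd3]
    field_simp
  have h8 := congrArg Complex.re key
  rw [neg_re, add_re, conj_re] at h8
  have h9 : (Complex.log (q : ℂ)).re = Real.log q := by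
    rw [Complex.log_re]
    simp
  rw [h9] at h8
  linarith

/-- **The real part of the logarithmic derivative at the central point.** For a primitive
Dirichlet character `χ` modulo `q > 1` with `L(1/2, χ) ≠ 0`,
`Re (L'/L)(1/2, χ) = -(log q)/2 - Re (γ'/γ)(1/2)`. -/
theorem logDeriv_re {q : ℕ} [NeZero q] (hq : 1 < q) {χ : DirichletCharacter ℂ q}
    (hχ : χ.IsPrimitive) (h1 : χ ≠ 1) (hne : DirichletCharacter.LFunction χ (1 / 2) ≠ 0) :
    (deriv (DirichletCharacter.LFunction χ) (1 / 2) /
      DirichletCharacter.LFunction χ (1 / 2)).re = -(Real.log q) / 2 -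
      (deriv (DirichletCharacter.gammaFactor χ) (1 / 2) /
        DirichletCharacter.gammaFactor χ (1 / 2)).re := by
  have hpos : (0 : ℝ) < (1 / 2 : ℂ).re := by norm_num
  have hγ := gammaFactor_ne χ hpos
  have e0 := completed_eq hq χ hpos
  have hc : DirichletCharacter.completedLFunction χ (1 / 2) ≠ 0 := by
    rw [e0]; exact mul_ne_zero hγ hne
  have hre := completed_re hq hχ h1 hc
  have hdγ : DifferentiableAt ℂ (DirichletCharacter.gammaFactor χ) (1 / 2) := by
    rcases gamma_cases χ with h | h
    · rw [h]; exact differentiableAt_Gammaℝ' hpos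
    · rw [h]
      have h3 : DifferentiableAt ℂ Gammaℝ ((1 / 2 : ℂ) + 1) :=
        differentiableAt_Gammaℝ' (by norm_num)
      exact h3.comp (1 / 2 : ℂ) (differentiableAt_id.add_const 1)
  have hdL : DifferentiableAt ℂ (DirichletCharacter.LFunction χ) (1 / 2) :=
    DirichletCharacter.differentiable_LFunction h1 _
  have hev : DirichletCharacter.completedLFunction χ =ᶠ[𝓝 (1 / 2 : ℂ)]
      fun s => DirichletCharacter.gammaFactor χ s * DirichletCharacter.LFunction χ s := by
    have hmem : {z : ℂ | 0 < z.re} ∈ 𝓝 (1 / 2 : ℂ) :=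
      (isOpen_lt continuous_const continuous_re).mem_nhds (by norm_num)
    filter_upwards [hmem] with z hz
    exact completed_eq hq χ hz
  have hder : deriv (DirichletCharacter.completedLFunction χ) (1 / 2) =
      deriv (DirichletCharacter.gammaFactor χ) (1 / 2) * DirichletCharacter.LFunction χ (1 / 2) +
      DirichletCharacter.gammaFactor χ (1 / 2) * deriv (DirichletCharacter.LFunction χ) (1 / 2) := by
    rw [hev.deriv_eq]
    exact (hdγ.hasDerivAt.mul hdL.hasDerivAt).deriv
  have hsum : deriv (DirichletCharacter.completedLFunction χ) (1 / 2) /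
      DirichletCharacter.completedLFunction χ (1 / 2) =
      deriv (DirichletCharacter.gammaFactor χ) (1 / 2) / DirichletCharacter.gammaFactor χ (1 / 2) +
      deriv (DirichletCharacter.LFunction χ) (1 / 2) / DirichletCharacter.LFunction χ (1 / 2) := by
    rw [hder, e0]
    field_simp
  rw [hsum, add_re] at hre
  linarith

/-- There is an absolute constant bounding the gamma factor term. -/
theorem gamma_term_bdd : ∃ C : ℝ, ∀ (q : ℕ) (χ : DirichletCharacter ℂ q),
    |(deriv (DirichletCharacter.gammaFactor χ) (1 / 2) /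
        DirichletCharacter.gammaFactor χ (1 / 2)).re| ≤ C := by
  refine ⟨max |(deriv (fun s => Gammaℝ s) (1 / 2) / Gammaℝ (1 / 2)).re|
    |(deriv (fun s => Gammaℝ (s + 1)) (1 / 2) / Gammaℝ (1 / 2 + 1)).re|, fun q χ => ?_⟩
  rcases gamma_cases χ with h | h
  · rw [h]; exact le_max_left _ _
  · rw [h]; exact le_max_right _ _

end Pool.Agent.R311
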